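import Pool.Agent.Helper34.GE.Defs

set_option autoImplicit false

/-!
Forms of cubic fourfolds with a plane in terms of matrices instead of bases and submodules, and
even dimension modulo a polynomial in elementary terms.
-/

namespace Pool.Agent.Helper29.RS

open MvPolynomial Matrix

variable {A B : Matrix (Fin 6) (Fin 3) ℂ}

theorem range_mulVec {m n : ℕ} (M : Matrix (Fin m) (Fin n) ℂ) :
    Set.range M.mulVec = (Submodule.span ℂ (Set.range M.col) : Set (Fin m → ℂ)) := by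
  rw [← Matrix.range_mulVecLin]
  ext x
  simp [Matrix.mulVecLin_apply]

/-- the basis of the columns -/
theorem exists_basis (h : (Matrix.fromCols A B).rank = 6) :
    ∃ w : Module.Basis (Fin 3 ⊕ Fin 3) ℂ (Fin 6 → ℂ), (∀ i, w (.inl i) = A.col i) ∧
      ∀ i, w (.inr i) = B.col i := by
  have h1 : LinearMap.range (Matrix.fromCols A B).mulVecLin = ⊤ := by
    apply Submodule.eq_top_of_finrank_eq
    rw [Module.finrank_fin_fun]
    exact h
  rw [Matrix.range_mulVecLin] at h1
  have h2 : Fintype.card (Fin 3 ⊕ Fin 3) = Module.finrank ℂ (Fin 6 → ℂ) := by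
    simp
  refine ⟨basisOfTopLeSpanOfCardEqFinrank (Matrix.fromCols A B).col h1.ge h2, fun i => ?_,
    fun i => ?_⟩
  · rw [coe_basisOfTopLeSpanOfCardEqFinrank]
    ext j
    simp [Matrix.col]
  · rw [coe_basisOfTopLeSpanOfCardEqFinrank]
    ext j
    simp [Matrix.col]

/-- the matrices of a basis -/
theorem exists_mats (w : Module.Basis (Fin 3 ⊕ Fin 3) ℂ (Fin 6 → ℂ)) :
    ∃ A B : Matrix (Fin 6) (Fin 3) ℂ, (Matrix.fromCols A B).rank = 6 ∧
      (∀ i, w (.inl i) = A.col i) ∧ ∀ i, w (.inr i) = B.col i := by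
  refine ⟨Matrix.of fun i j => w (.inl j) i, Matrix.of fun i j => w (.inr j) i, ?_,
    fun i => ?_, fun i => ?_⟩
  · have h1 : (Matrix.fromCols (Matrix.of fun i j => w (.inl j) i)
        (Matrix.of fun i j => w (.inr j) i) : Matrix (Fin 6) (Fin 3 ⊕ Fin 3) ℂ).col = w := by
      funext j i
      rcases j with j | j <;> simp [Matrix.col]
    rw [Matrix.rank, Matrix.range_mulVecLin, h1, w.span_eq, finrank_top, Module.finrank_fin_fun]
  · ext j
    simp [Matrix.col]
  · ext j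
    simp [Matrix.col]

theorem sum_eq (w : Module.Basis (Fin 3 ⊕ Fin 3) ℂ (Fin 6 → ℂ)) (hA : ∀ i, w (.inl i) = A.col i)
    (hB : ∀ i, w (.inr i) = B.col i) (y z : Fin 3 → ℂ) (s : ℂ) :
    ∑ i, y i • w (.inl i) + s • ∑ i, z i • w (.inr i) = A *ᵥ y + s • B *ᵥ z := by
  ext j
  simp only [hA, hB, Pi.add_apply, Pi.smul_apply, Finset.sum_apply, Matrix.mulVec, dotProduct,
    smul_eq_mul, Matrix.col, Matrix.transpose_apply]
  congr 1
  · exact Finset.sum_congr rfl fun i _ => mul_comm _ _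
  · congr 1
    exact Finset.sum_congr rfl fun i _ => mul_comm _ _

theorem quad_eq {n : ℕ} (N : Matrix (Fin n) (Fin n) (MvPolynomial (Fin 3) ℂ)) (z : Fin 3 → ℂ)
    (v : Fin n → ℂ) :
    ∑ i, ∑ j, eval z (N i j) * v i * v j = v ⬝ᵥ N.map (eval z) *ᵥ v := by
  simp only [dotProduct, Matrix.mulVec, Finset.mul_sum, Matrix.map_apply]
  exact Finset.sum_congr rfl fun i _ => Finset.sum_congr rfl fun j _ => by ring

theorem span_eq (w : Module.Basis (Fin 3 ⊕ Fin 3) ℂ (Fin 6 → ℂ))
    (hA : ∀ i, w (.inl i) = A.col i) :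
    (Submodule.span ℂ (Set.range fun i => w (.inl i)) : Set (Fin 6 → ℂ)) = Set.range A.mulVec := by
  rw [range_mulVec]
  congr 2
  congr 1
  funext i
  exact hA i

/-- planes in terms of matrices -/
theorem exists_submodule (P : Set (Fin 6 → ℂ)) (M : Matrix (Fin 6) (Fin 3) ℂ) (hM : M.rank = 3)
    (hP : P = Set.range M.mulVec) :
    ∃ W : Submodule ℂ (Fin 6 → ℂ), Module.finrank ℂ W = 3 ∧ (W : Set (Fin 6 → ℂ)) = P := by
  refine ⟨Submodule.span ℂ (Set.range M.col), ?_, ?_⟩
  · rw [← Matrix.range_mulVecLin]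
    exact hM
  · rw [hP, range_mulVec]

theorem exists_matrix (W : Submodule ℂ (Fin 6 → ℂ)) (hW : Module.finrank ℂ W = 3) :
    ∃ M : Matrix (Fin 6) (Fin 3) ℂ, M.rank = 3 ∧ (W : Set (Fin 6 → ℂ)) = Set.range M.mulVec := by
  let b := Module.finBasisOfFinrankEq ℂ W hW
  have h1 : Submodule.span ℂ
      (Set.range (Matrix.of fun i j => (b j : Fin 6 → ℂ) i : Matrix (Fin 6) (Fin 3) ℂ).col) =
      W := by
    have h2 : (Matrix.of fun i j => (b j : Fin 6 → ℂ) i : Matrix (Fin 6) (Fin 3) ℂ).col =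
        fun j => (W.subtype (b j)) := by
      funext j i
      simp [Matrix.col]
    rw [h2, Set.range_comp' W.subtype b, ← Submodule.map_span, b.span_eq, Submodule.map_top,
      Submodule.range_subtype]
  refine ⟨Matrix.of fun i j => (b j : Fin 6 → ℂ) i, ?_, ?_⟩
  · rw [Matrix.rank, Matrix.range_mulVecLin, h1, hW]
  · rw [range_mulVec, h1]

/-- a set of polynomials with a finite basis modulo `δ` of `n` elements -/
theorem finrank_eq {δ : MvPolynomial (Fin 3) ℂ} {S : Set (MvPolynomial (Fin 3) ℂ)} {n : ℕ}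
    {b : Fin n → MvPolynomial (Fin 3) ℂ} (hb : ∀ i, b i ∈ S)
    (hi : ∀ c : Fin n → ℂ, δ ∣ ∑ i, C (c i) * b i → ∀ i, c i = 0)
    (hsp : ∀ s ∈ S, ∃ c : Fin n → ℂ, δ ∣ s - ∑ i, C (c i) * b i) :
    Module.finrank ℂ (Submodule.span ℂ (Ideal.Quotient.mk (Ideal.span {δ}) '' S)) = n := by
  have hz : ∀ (f : MvPolynomial (Fin 3) ℂ), Ideal.Quotient.mk (Ideal.span {δ}) f = 0 ↔ δ ∣ f := by
    intro f
    rw [Ideal.Quotient.eq_zero_iff_mem, Ideal.mem_span_singleton]
  have hc : ∀ c : Fin n → ℂ, Ideal.Quotient.mk (Ideal.span {δ}) (∑ i, C (c i) * b i) =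
      ∑ i, c i • Ideal.Quotient.mk (Ideal.span {δ}) (b i) := by
    intro c
    rw [map_sum]
    refine Finset.sum_congr rfl fun i _ => ?_
    rw [← MvPolynomial.smul_eq_C_mul]
    rfl
  have h1 : Submodule.span ℂ (Ideal.Quotient.mk (Ideal.span {δ}) '' S) =
      Submodule.span ℂ (Set.range fun i => Ideal.Quotient.mk (Ideal.span {δ}) (b i)) := by
    apply le_antisymm
    · rw [Submodule.span_le]
      rintro _ ⟨s, hs, rfl⟩
      obtain ⟨c, h2⟩ := hsp s hs
      have h3 : Ideal.Quotient.mk (Ideal.span {δ}) s =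
          ∑ i, c i • Ideal.Quotient.mk (Ideal.span {δ}) (b i) := by
        rw [← hc, ← sub_eq_zero, ← map_sub]
        exact (hz _).2 h2
      rw [SetLike.mem_coe, h3]
      exact Submodule.sum_mem _ fun i _ => Submodule.smul_mem _ _
        (Submodule.subset_span ⟨i, rfl⟩)
    · rw [Submodule.span_le]
      rintro _ ⟨i, rfl⟩
      exact Submodule.subset_span ⟨b i, hb i, rfl⟩
  have h2 : LinearIndependent ℂ fun i => Ideal.Quotient.mk (Ideal.span {δ}) (b i) := by
    rw [Fintype.linearIndependent_iff]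
    intro c h3 i
    rw [← hc] at h3
    exact hi c ((hz _).1 h3) i
  rw [h1, finrank_span_eq_card h2, Fintype.card_fin]

end Pool.Agent.Helper29.RS
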