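import Pool.Agent.Helper34.GE.EckForm
import Pool.Agent.Helper34.GE.Final

set_option autoImplicit false

namespace Pool.Agent.Helper29.RS.ReducibleSextic

open MvPolynomial Module Helper34.GE.Defs

/-- `{F = 0}` is rational: the affine equation `F (1, x₁, ..., x₅)` generates a prime ideal, and the
fraction field of the quotient is a purely transcendental extension of `ℂ` of degree four. -/
def IsRational (F : MvPolynomial (Fin 6) ℂ) : Prop :=
  (Ideal.span {aeval (Fin.cons 1 X : Fin 6 → MvPolynomial (Fin 5) ℂ) F}).IsPrime ∧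
    Nonempty (FractionRing (MvPolynomial (Fin 5) ℂ ⧸
        Ideal.span {aeval (Fin.cons 1 X : Fin 6 → MvPolynomial (Fin 5) ℂ) F}) ≃ₐ[ℂ]
      FractionRing (MvPolynomial (Fin 4) ℂ))

/-- the planes in `{F = 0}` -/
def planes (F : MvPolynomial (Fin 6) ℂ) : Set (Submodule ℂ (Fin 6 → ℂ)) :=
  {W | finrank ℂ W = 3 ∧ ∀ x ∈ W, eval x F = 0}

/-- `p` is an Eckardt point: the tangent hyperplane section at `p` is a cone with vertex `p`. -/
def IsEckardt (F : MvPolynomial (Fin 6) ℂ) (p : Fin 6 → ℂ) : Prop :=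
  p ≠ 0 ∧ ∀ v, ∑ i, v i * eval p (pderiv i F) = 0 → eval (p + v) F = eval v F

/-- The discriminant sextic of the projection from the plane `P` is reducible: `{F = 0}` has the
equation `s N(z)(y, s)` in coordinates with `P = {s = 0}`, `N(z)` a symmetric matrix of polynomials, and
`det N` is not irreducible. -/
def ReducibleDiscriminant (F : MvPolynomial (Fin 6) ℂ) (P : Submodule ℂ (Fin 6 → ℂ)) : Prop :=
  ∃ (w : Basis (Fin 3 ⊕ Fin 3) ℂ (Fin 6 → ℂ)) (N : Matrix (Fin 4) (Fin 4) (MvPolynomial (Fin 3) ℂ)),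
    PlaneForm F w N ∧ Submodule.span ℂ (Set.range fun i => w (.inl i)) = P ∧ ¬ Irreducible N.det

/-- Let `X = {F = 0}` be a smooth complex cubic fourfold.
(1) If `X` contains a plane `P` with reducible discriminant sextic, then `X` is rational, or `X`
contains exactly 27 planes, all through one Eckardt point of `X`.
(2) Each plane `W` of `X` through an Eckardt point `p` has an Eckardt form `M`, and `X` is rational
if it has an Eckardt form `M` whose quintic `{det M = 0}` has an even theta characteristic given by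
curves which split in the double plane branched over the sextic. -/
theorem result (F : MvPolynomial (Fin 6) ℂ) (hF : F.IsHomogeneous 3)
    (hs : ∀ x : Fin 6 → ℂ, x ≠ 0 → ∃ i, eval x (pderiv i F) ≠ 0) :
    (∀ P, ReducibleDiscriminant F P → IsRational F ∨
      ((planes F).encard = 27 ∧ ∃ p ∈ P, IsEckardt F p ∧ ∀ W ∈ planes F, p ∈ W)) ∧
    (∀ p, IsEckardt F p → ∀ W ∈ planes F, p ∈ W → ∃ w M, EckardtForm F w M ∧ w (.inl 0) = p ∧
      Submodule.span ℂ (Set.range fun i => w (.inl i)) = W) ∧
    ∀ w M, EckardtForm F w M → EvenThetaQuintic M → IsRational F := by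
  refine ⟨?_, ?_, ?_⟩
  · rintro P ⟨w, N, hN, rfl, hred⟩
    rcases Helper34.GE.RD.reducible F hF hs w N hN.1 hN.2 hred with
      h | ⟨-, p, hpw, hp0, hE, hpW, h27⟩
    · exact Or.inl h
    · exact Or.inr ⟨h27, p, hpw, ⟨hp0, hE⟩, fun W hW => hpW W hW.1 hW.2⟩
  · intro p hp W hW hpW
    exact Helper34.GE.exists_eckardtForm F hF hs p hp.1 hp.2 W hW.1 hW.2 hpW
  · intro w M h hT
    exact Helper34.GE.rational_of_eckardtForm hF hs h hT

end Pool.Agent.Helper29.RS.ReducibleSextic
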