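import Pool.Agent.Helper34.GE.EckForm
import Pool.Agent.Helper34.GE.Final

set_option autoImplicit false

namespace Pool.Agent.Helper29.RS.ReducibleDiscriminant

open MvPolynomial Module Helper34.GE Helper34.GE.Defs

/-- A smooth complex cubic fourfold `{F = 0}` which contains a plane such that the discriminant
sextic of the projection from the plane is not irreducible is rational, unless the following holds:
the sextic is the union of a line and an irreducible quintic; the plane contains an Eckardt point
`p`; the fourfold contains exactly 27 planes, all through `p`; the quadric surface bundle of the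
projection from a plane of the fourfold never has a rational section; each plane of the fourfold has
an Eckardt form `M`, and for all Eckardt forms `M` the quintic `{det M = 0}` is smooth and the curves
which split in the double plane branched over the sextic give no even theta characteristic on it.

The vector `p` is an Eckardt point when `F (p + v) = F v` for all tangent directions `v` at `p` (the
tangent hyperplane section is a cone with vertex `p`). -/
theorem result (F : MvPolynomial (Fin 6) ℂ) (hF : F.IsHomogeneous 3)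
    (hs : ∀ x : Fin 6 → ℂ, x ≠ 0 → ∃ i, eval x (pderiv i F) ≠ 0)
    (w : Basis (Fin 3 ⊕ Fin 3) ℂ (Fin 6 → ℂ))
    (N : Matrix (Fin 4) (Fin 4) (MvPolynomial (Fin 3) ℂ)) (hN : PlaneForm F w N)
    (hred : ¬ Irreducible N.det) :
    ((Ideal.span {aeval (Fin.cons 1 X : Fin 6 → MvPolynomial (Fin 5) ℂ) F}).IsPrime ∧
      Nonempty (FractionRing (MvPolynomial (Fin 5) ℂ ⧸
          Ideal.span {aeval (Fin.cons 1 X : Fin 6 → MvPolynomial (Fin 5) ℂ) F}) ≃ₐ[ℂ]
        FractionRing (MvPolynomial (Fin 4) ℂ))) ∨
    ((∃ l q : MvPolynomial (Fin 3) ℂ, l.IsHomogeneous 1 ∧ q.IsHomogeneous 5 ∧ Irreducible q ∧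
        N.det = l * q) ∧
      (∃ p ∈ Submodule.span ℂ (Set.range fun i => w (.inl i)), p ≠ 0 ∧
        (∀ v, ∑ i, v i * eval p (pderiv i F) = 0 → eval (p + v) F = eval v F) ∧
        (∀ W : Submodule ℂ (Fin 6 → ℂ), finrank ℂ W = 3 → (∀ x ∈ W, eval x F = 0) → p ∈ W ∧
          ∃ w' M, EckardtForm F w' M ∧ w' (.inl 0) = p ∧
            Submodule.span ℂ (Set.range fun i => w' (.inl i)) = W) ∧
        {W : Submodule ℂ (Fin 6 → ℂ) | finrank ℂ W = 3 ∧ ∀ x ∈ W, eval x F = 0}.encard = 27) ∧
      (∀ w' N', PlaneForm F w' N' → ¬ RationalSection N') ∧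
      ∀ w' M, EckardtForm F w' M → M.det.IsHomogeneous 5 ∧
        (∀ z : Fin 3 → ℂ, z ≠ 0 → eval z M.det = 0 → ∃ i, eval z (pderiv i M.det) ≠ 0) ∧
        ¬ EvenThetaQuintic M) := by
  by_cases hR : Rational F
  · exact Or.inl hR
  right
  rcases RD.reducible F hF hs w N hN.1 hN.2 hred with h | ⟨hd, p, hpw, hp0, hE, hpW, h27⟩
  · exact absurd h hR
  refine ⟨hd, ⟨p, hpw, hp0, hE, fun W hW hWF => ⟨hpW W hW hWF,
    exists_eckardtForm F hF hs p hp0 hE W hW hWF (hpW W hW hWF)⟩, h27⟩,
    fun w' N' h h' => hR (rational_of_planeForm hF hs h h'),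
    fun w' M h => ?_⟩
  obtain ⟨h5, hsm⟩ := (rational_or_smooth hF hs h).resolve_left hR
  exact ⟨h5, hsm, fun h' => hR (rational_of_eckardtForm hF hs h h')⟩

end Pool.Agent.Helper29.RS.ReducibleDiscriminant
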