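import Pool.Agent.Helper34.GE.EckForm
import Pool.Agent.Helper34.GE.Final
import Pool.Agent.Helper29.RS.Conv

set_option autoImplicit false

namespace Pool.Agent.Helper29.RS.Slim

open MvPolynomial Matrix

/-- `{F = 0}` is rational: the affine equation `F (1, x₁, ..., x₅)` generates a prime ideal, and the
fraction field of the quotient is a purely transcendental extension of `ℂ` of degree four. -/
def IsRational (F : MvPolynomial (Fin 6) ℂ) : Prop :=
  (Ideal.span {aeval (Fin.cons 1 X : Fin 6 → MvPolynomial (Fin 5) ℂ) F}).IsPrime ∧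
    Nonempty (FractionRing (MvPolynomial (Fin 5) ℂ ⧸
        Ideal.span {aeval (Fin.cons 1 X : Fin 6 → MvPolynomial (Fin 5) ℂ) F}) ≃ₐ[ℂ]
      FractionRing (MvPolynomial (Fin 4) ℂ))

/-- the planes in `{F = 0}` -/
def planes (F : MvPolynomial (Fin 6) ℂ) : Set (Set (Fin 6 → ℂ)) :=
  {P | ∃ M : Matrix (Fin 6) (Fin 3) ℂ, M.rank = 3 ∧ P = Set.range M.mulVec ∧
    ∀ x ∈ P, eval x F = 0}

/-- `p` is an Eckardt point: the tangent hyperplane section at `p` is a cone with vertex `p`. -/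
def IsEckardt (F : MvPolynomial (Fin 6) ℂ) (p : Fin 6 → ℂ) : Prop :=
  p ≠ 0 ∧ ∀ v, ∑ i, v i * eval p (pderiv i F) = 0 → eval (p + v) F = eval v F

/-- `F (A y + s B z) = s N(z)(y, s)`, so `{F = 0}` contains the plane of the points `A y`, and
`N` is the matrix of the quadric surface bundle of the projection from this plane. -/
def PlaneForm (F : MvPolynomial (Fin 6) ℂ) (A B : Matrix (Fin 6) (Fin 3) ℂ)
    (N : Matrix (Fin 4) (Fin 4) (MvPolynomial (Fin 3) ℂ)) : Prop :=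
  (fromCols A B).rank = 6 ∧ N.IsSymm ∧ ∀ (y z : Fin 3 → ℂ) (s : ℂ),
    eval (A *ᵥ y + s • B *ᵥ z) F =
      s * (![y 0, y 1, y 2, s] ⬝ᵥ N.map (eval z) *ᵥ ![y 0, y 1, y 2, s])

/-- The discriminant sextic of the projection from the plane `P` of `{F = 0}` is reducible. -/
def ReducibleDiscriminant (F : MvPolynomial (Fin 6) ℂ) (P : Set (Fin 6 → ℂ)) : Prop :=
  ∃ A B N, PlaneForm F A B N ∧ P = Set.range A.mulVec ∧ ¬ Irreducible N.det

/-- `F (A y + s B z) = s (z₀ y₀ ^ 2 + M(z)(y₁, y₂, s))` -/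
def EckardtForm (F : MvPolynomial (Fin 6) ℂ) (A B : Matrix (Fin 6) (Fin 3) ℂ)
    (M : Matrix (Fin 3) (Fin 3) (MvPolynomial (Fin 3) ℂ)) : Prop :=
  (fromCols A B).rank = 6 ∧ M.IsSymm ∧ ∀ (y z : Fin 3 → ℂ) (s : ℂ),
    eval (A *ᵥ y + s • B *ᵥ z) F =
      s * (z 0 * y 0 ^ 2 + ![y 1, y 2, s] ⬝ᵥ M.map (eval z) *ᵥ ![y 1, y 2, s])

/-- the span of `S` modulo `δ` has even dimension -/
def EvenDim (δ : MvPolynomial (Fin 3) ℂ) (S : Set (MvPolynomial (Fin 3) ℂ)) : Prop :=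
  ∃ (n : ℕ) (b : Fin (2 * n) → MvPolynomial (Fin 3) ℂ), (∀ i, b i ∈ S) ∧
    (∀ c : Fin (2 * n) → ℂ, δ ∣ ∑ i, C (c i) * b i → ∀ i, c i = 0) ∧
    ∀ s ∈ S, ∃ c : Fin (2 * n) → ℂ, δ ∣ s - ∑ i, C (c i) * b i

/-- The curves which split in the double plane branched over `z₀ det M = 0` give an even theta
characteristic on the quintic `{det M = 0}`. -/
def EvenThetaQuintic (M : Matrix (Fin 3) (Fin 3) (MvPolynomial (Fin 3) ℂ)) : Prop :=
  ∃ (μ : MvPolynomial (Fin 3) ℂ) (k : ℕ), μ.IsHomogeneous (2 * k) ∧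
    (∀ a b : ℂ, eval ![0, a, b] M.det = 0 → eval ![0, a, b] μ = 0 → a = 0 ∧ b = 0) ∧
    (∀ π, Irreducible π → π ∣ μ → ∃ g h, ¬ π ∣ h ∧ π ∣ g ^ 2 - X 0 * M.det * h ^ 2) ∧
    EvenDim M.det {s | s.IsHomogeneous (k + 2) ∧
      ∃ G : MvPolynomial (Fin 3) ℂ, G.IsHomogeneous 2 ∧ M.det ∣ s ^ 2 - μ * M.adjugate 2 2 * G}

/-- Let `X = {F = 0}` be a smooth complex cubic fourfold.
(1) If `X` contains a plane `P` with reducible discriminant sextic, then `X` is rational, or `X`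
contains exactly 27 planes, all through one Eckardt point of `X`.
(2) Each plane `W` of `X` through an Eckardt point `p` has an Eckardt form `M`, and `X` is rational
if it has an Eckardt form `M` whose quintic `{det M = 0}` has an even theta characteristic given by
curves which split in the double plane branched over the sextic. -/
theorem result (F : MvPolynomial (Fin 6) ℂ) (hF : F.IsHomogeneous 3)
    (hs : ∀ x : Fin 6 → ℂ, (∀ i, eval x (pderiv i F) = 0) → ∀ i, x i = 0) :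
    (∀ P, ReducibleDiscriminant F P → IsRational F ∨
      ((planes F).encard = 27 ∧ ∃ p ∈ P, IsEckardt F p ∧ ∀ W ∈ planes F, p ∈ W)) ∧
    (∀ p, IsEckardt F p → ∀ W ∈ planes F, p ∈ W →
      ∃ A B M, EckardtForm F A B M ∧ A *ᵥ ![1, 0, 0] = p ∧ Set.range A.mulVec = W) ∧
    ∀ A B M, EckardtForm F A B M → EvenThetaQuintic M → IsRational F := by
  have hs' : ∀ x : Fin 6 → ℂ, x ≠ 0 → ∃ i, eval x (pderiv i F) ≠ 0 := by
    intro x hx
    by_contra h
    push Not at h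
    exact hx (funext (hs x h))
  have hpl : planes F = (fun W : Submodule ℂ (Fin 6 → ℂ) => (W : Set (Fin 6 → ℂ))) ''
      {W | Module.finrank ℂ W = 3 ∧ ∀ x ∈ W, eval x F = 0} := by
    ext P
    constructor
    · rintro ⟨M, hM, hP, h⟩
      obtain ⟨W, hW, rfl⟩ := exists_submodule P M hM hP
      exact ⟨W, ⟨hW, fun x hx => h x hx⟩, rfl⟩
    · rintro ⟨W, ⟨hW, h⟩, rfl⟩
      obtain ⟨M, hM, hWM⟩ := exists_matrix W hW
      exact ⟨M, hM, hWM, fun x hx => h x hx⟩
  refine ⟨?_, ?_, ?_⟩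
  · rintro P ⟨A, B, N, ⟨hr, hN, hQ⟩, hP, hred⟩
    obtain ⟨w, hA, hB⟩ := exists_basis hr
    rcases Helper34.GE.RD.reducible F hF hs' w N hN (fun y z s => by
      rw [sum_eq w hA hB, hQ, quad_eq]) hred with
      h | ⟨-, p, hpw, hp0, hE, hpW, h27⟩
    · exact Or.inl h
    · refine Or.inr ⟨?_, p, ?_, ⟨hp0, hE⟩, ?_⟩
      · rw [hpl, (SetLike.coe_injective).encard_image]
        exact h27
      · rw [hP, ← span_eq w hA]
        exact hpw
      · intro W hW
        rw [hpl] at hW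
        obtain ⟨W, hW, rfl⟩ := hW
        exact hpW W hW.1 hW.2
  · intro p hp W hW hpW
    rw [hpl] at hW
    obtain ⟨W, hW, rfl⟩ := hW
    obtain ⟨w, M, hM, hwp, hwW⟩ := Helper34.GE.exists_eckardtForm F hF hs' p hp.1 hp.2 W hW.1 hW.2 hpW
    obtain ⟨A, B, hr, hA, hB⟩ := exists_mats w
    refine ⟨A, B, M, ⟨hr, hM.1, fun y z s => ?_⟩, ?_, ?_⟩
    · rw [← sum_eq w hA hB, hM.2, quad_eq]
    · rw [← hwp, hA]
      ext j
      simp [Matrix.mulVec, dotProduct, Fin.sum_univ_three, Matrix.col]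
    · rw [← span_eq w hA, hwW]
  · rintro A B M ⟨hr, hM, hQ⟩ ⟨μ, k, hμ, hμ0, hsp, n, b, hb, hi, hsp'⟩
    obtain ⟨w, hA, hB⟩ := exists_basis hr
    refine Helper34.GE.rational_of_eckardtForm hF hs' (w := w) (M := M)
      ⟨hM, fun y z s => by rw [sum_eq w hA hB, hQ, quad_eq]⟩ ⟨μ, k, hμ, ?_, hsp, ?_⟩
    · intro z hz hz0 hd h0
      have e : z = ![0, z 1, z 2] := by
        ext i
        fin_cases i
        · exact hz0
        · rfl
        · rfl
      rw [e] at hd h0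
      obtain ⟨h1, h2⟩ := hμ0 _ _ hd h0
      apply hz
      rw [e, h1, h2]
      ext i
      fin_cases i <;> rfl
    · have e : Helper34.GE.Defs.thetaSections M.det (μ * M.adjugate 2 2) (k + 2) 2 =
          Submodule.span ℂ (Ideal.Quotient.mk (Ideal.span {M.det}) ''
            {s | s.IsHomogeneous (k + 2) ∧ ∃ G : MvPolynomial (Fin 3) ℂ, G.IsHomogeneous 2 ∧
              M.det ∣ s ^ 2 - μ * M.adjugate 2 2 * G}) := by
        rw [Helper34.GE.Defs.thetaSections]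
        congr 1
        ext f
        constructor
        · rintro ⟨s, G, h1, h2, h3, h4⟩
          exact ⟨s, ⟨h1, G, h2, h3⟩, h4⟩
        · rintro ⟨s, ⟨h1, G, h2, h3⟩, h4⟩
          exact ⟨s, G, h1, h2, h3, h4⟩
      rw [e, finrank_eq hb hi hsp']
      exact even_two_mul n

end Pool.Agent.Helper29.RS.Slim
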