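import Pool.Agent.Helper29.OS.Plane
import Pool.Agent.Helper89.GC.Final
import Pool.Agent.Helper29.RS.Conv

set_option autoImplicit false

namespace Pool.Agent.Helper29.RS.SlimP

open MvPolynomial Matrix

/-- `{F = 0}` is rational: the affine equation `F (1, x₁, ..., x₅)` generates a prime ideal, and the
fraction field of the quotient is a purely transcendental extension of `ℂ` of degree four. -/
def IsRational (F : MvPolynomial (Fin 6) ℂ) : Prop :=
  (Ideal.span {aeval (Fin.cons 1 X : Fin 6 → MvPolynomial (Fin 5) ℂ) F}).IsPrime ∧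
    Nonempty (FractionRing (MvPolynomial (Fin 5) ℂ ⧸
        Ideal.span {aeval (Fin.cons 1 X : Fin 6 → MvPolynomial (Fin 5) ℂ) F}) ≃ₐ[ℂ]
      FractionRing (MvPolynomial (Fin 4) ℂ))

/-- The span of the set `S` modulo `δ` has even dimension. -/
def EvenDim (δ : MvPolynomial (Fin 3) ℂ) (S : Set (MvPolynomial (Fin 3) ℂ)) : Prop :=
  ∃ (n : ℕ) (b : Fin (2 * n) → MvPolynomial (Fin 3) ℂ), (∀ i, b i ∈ S) ∧
    (∀ c : Fin (2 * n) → ℂ, δ ∣ ∑ i, C (c i) * b i → ∀ i, c i = 0) ∧
    ∀ s ∈ S, ∃ c : Fin (2 * n) → ℂ, δ ∣ s - ∑ i, C (c i) * b i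

/-- The quadric surface bundle over the plane with matrix `N` has a rational section. -/
def RationalSection (N : Matrix (Fin 4) (Fin 4) (MvPolynomial (Fin 3) ℂ)) : Prop :=
  ∃ v : Fin 4 → MvPolynomial (Fin 3) ℂ, v ≠ 0 ∧ v ⬝ᵥ N *ᵥ v = 0

/-- There is a plane curve `{μ = 0}`, without the component `D = {det N = 0}`, all whose components
split in the double plane branched over `D` (`det N` is a square on each of them), which gives an
even theta characteristic on `D`.  The theta characteristic is that of the form `ρ` of odd degree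
among `μ` and `μ * N.adjugate 3 3` (the cubic form `N.adjugate 3 3` cuts out twice the divisor of
the section of the theta characteristic of `N`): if `ρ` has degree `2 k + 3` and cuts out twice a
divisor `Z` on `D`, the forms `s` of degree `k + 3` with `s ^ 2 = ρ * G` on `D` for a cubic form `G`
are the sections of the theta characteristic `O_D(k + 3)(-Z)`. -/
def EvenTheta (N : Matrix (Fin 4) (Fin 4) (MvPolynomial (Fin 3) ℂ)) : Prop :=
  ∃ (μ ρ : MvPolynomial (Fin 3) ℂ) (k : ℕ), ¬ N.det ∣ μ ∧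
    (∀ π, Irreducible π → π ∣ μ → ∃ g h, ¬ π ∣ h ∧ π ∣ g ^ 2 - N.det * h ^ 2) ∧
    (ρ = μ ∨ ρ = μ * N.adjugate 3 3) ∧ ρ.IsHomogeneous (2 * k + 3) ∧
    EvenDim N.det {s | s.IsHomogeneous (k + 3) ∧
      ∃ G : MvPolynomial (Fin 3) ℂ, G.IsHomogeneous 3 ∧ N.det ∣ s ^ 2 - ρ * G}

/-- A smooth complex cubic fourfold containing a plane, with smooth discriminant sextic
`D = {det N = 0}`, is rational if its quadric surface bundle has a rational section, or if one of the
theta characteristics of `D` given by `N` and by the curves which split in the double plane branched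
over `D` is even.

The plane is the set of the points `A y`.  `N` is the symmetric matrix of the quadric surface bundle
of the projection from the plane.  For these cubic fourfolds the last hypothesis is, by Hodge
theory and lattice theory (not formalised here), the existence of an associated K3 surface. -/
theorem result (F : MvPolynomial (Fin 6) ℂ) (hF : F.IsHomogeneous 3)
    (hs : ∀ x : Fin 6 → ℂ, (∀ i, eval x (pderiv i F) = 0) → ∀ i, x i = 0)
    (A B : Matrix (Fin 6) (Fin 3) ℂ) (hr : (fromCols A B).rank = 6)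
    (N : Matrix (Fin 4) (Fin 4) (MvPolynomial (Fin 3) ℂ)) (hN : N.IsSymm)
    (hQ : ∀ (y z : Fin 3 → ℂ) (s : ℂ), eval (A *ᵥ y + s • B *ᵥ z) F =
      s * (![y 0, y 1, y 2, s] ⬝ᵥ N.map (eval z) *ᵥ ![y 0, y 1, y 2, s]))
    (hD : ∀ z : Fin 3 → ℂ, eval z N.det = 0 → (∀ i, eval z (pderiv i N.det) = 0) → ∀ i, z i = 0)
    (hK : RationalSection N ∨ EvenTheta N) : IsRational F := by
  have hs' : ∀ x : Fin 6 → ℂ, x ≠ 0 → ∃ i, eval x (pderiv i F) ≠ 0 := by
    intro x hx
    by_contra h
    push Not at h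
    exact hx (funext (hs x h))
  have hD' : ∀ z : Fin 3 → ℂ, z ≠ 0 → eval z N.det = 0 → ∃ i, eval z (pderiv i N.det) ≠ 0 := by
    intro z hz h0
    by_contra h
    push Not at h
    exact hz (funext (hD z h0 h))
  obtain ⟨w, hA, hB⟩ := exists_basis hr
  have hQ' : ∀ (y z : Fin 3 → ℂ) (s : ℂ),
      eval (∑ i, y i • w (.inl i) + s • ∑ i, z i • w (.inr i)) F =
        s * ∑ i, ∑ j, eval z (N i j) * (![y 0, y 1, y 2, s] : Fin 4 → ℂ) i *
          (![y 0, y 1, y 2, s] : Fin 4 → ℂ) j := fun y z s => by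
    rw [sum_eq w hA hB, hQ, quad_eq]
  rcases hK with ⟨v, hv, h0⟩ | ⟨μ, ρ, k, hμN, hsp, hρ, hρh, n, b, hb, hi, hsp'⟩
  · exact Helper29.OS.rational_of_section F hF hs' w N hN hQ' v hv h0
  · refine Helper89.GC.uniform F hF hs' w N hN hQ' hD' μ ρ hμN hsp hρ k hρh ?_
    have h := finrank_eq hb hi hsp'
    have e : (Ideal.Quotient.mk (Ideal.span {N.det}) '' {s | s.IsHomogeneous (k + 3) ∧
          ∃ G : MvPolynomial (Fin 3) ℂ, G.IsHomogeneous 3 ∧ N.det ∣ s ^ 2 - ρ * G}) =
        {f | ∃ s G : MvPolynomial (Fin 3) ℂ, s.IsHomogeneous (k + 3) ∧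
          G.IsHomogeneous 3 ∧ N.det ∣ s ^ 2 - ρ * G ∧
            Ideal.Quotient.mk (Ideal.span {N.det}) s = f} := by
      ext f
      constructor
      · rintro ⟨s, ⟨h1, G, h2, h3⟩, h4⟩
        exact ⟨s, G, h1, h2, h3, h4⟩
      · rintro ⟨s, G, h1, h2, h3, h4⟩
        exact ⟨s, ⟨h1, G, h2, h3⟩, h4⟩
    rw [e] at h
    rw [h]
    exact even_two_mul n

end Pool.Agent.Helper29.RS.SlimP
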